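import Mathlib

/-!
# OM, leaf L1: a finitely supported positive definite function on the discrete group of the
real numbers has a nonnegative sum (Foelner sets in finitely generated abelian groups)
-/

set_option autoImplicit false

namespace Pool.Agent.Helper16.OM

open Finset

/-- The sums `∑ k γ * γ` with `0 ≤ k γ ≤ n`. -/
noncomputable def boxR (G : Finset ℝ) (n : ℕ) : Finset ℝ :=
  (Fintype.piFinset fun _ : G => range (n + 1)).image fun k : G → ℕ => ∑ γ : G, (k γ : ℝ) * (γ : ℝ)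

theorem boxR_card_le (G : Finset ℝ) (n : ℕ) : (boxR G n).card ≤ (n + 1) ^ G.card := by
  unfold boxR
  refine card_image_le.trans ?_
  rw [Fintype.card_piFinset]
  simp

theorem boxR_nonempty (G : Finset ℝ) (n : ℕ) : (boxR G n).Nonempty := by
  unfold boxR
  refine Nonempty.image ?_ _
  refine ⟨fun _ => 0, ?_⟩
  simp [Fintype.mem_piFinset]

theorem boxR_mono (G : Finset ℝ) (n : ℕ) : boxR G n ⊆ boxR G (n + 1) := by
  unfold boxR
  refine image_subset_image ?_
  intro k hk
  rw [Fintype.mem_piFinset] at hk ⊢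
  intro γ
  have := hk γ
  rw [mem_range] at this ⊢
  omega

theorem boxR_shift (G : Finset ℝ) (n : ℕ) {γ : ℝ} (hγ : γ ∈ G) {x : ℝ} (hx : x ∈ boxR G n) :
    x + γ ∈ boxR G (n + 1) := by
  classical
  unfold boxR at hx ⊢
  rw [mem_image] at hx ⊢
  obtain ⟨k, hk, rfl⟩ := hx
  refine ⟨Function.update k ⟨γ, hγ⟩ (k ⟨γ, hγ⟩ + 1), ?_, ?_⟩
  · rw [Fintype.mem_piFinset] at hk ⊢
    intro δ
    have := hk δ
    rw [mem_range] at this ⊢
    by_cases h : δ = ⟨γ, hγ⟩
    · subst h
      rw [Function.update_self]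
      omega
    · rw [Function.update_of_ne h]
      omega
  · have h1 : ∀ δ : G, ((Function.update k ⟨γ, hγ⟩ (k ⟨γ, hγ⟩ + 1) δ : ℕ) : ℝ) * (δ : ℝ) =
        (k δ : ℝ) * (δ : ℝ) + if δ = ⟨γ, hγ⟩ then γ else 0 := by
      intro δ
      by_cases h : δ = ⟨γ, hγ⟩
      · subst h
        rw [Function.update_self, if_pos rfl]
        push_cast
        ring
      · rw [Function.update_of_ne h, if_neg h, add_zero]
    rw [sum_congr rfl fun δ _ => h1 δ, sum_add_distrib, sum_ite_eq' univ (⟨γ, hγ⟩ : G)]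
    simp

/-- Slow growth at some step. -/
theorem boxR_slow (G : Finset ℝ) {ε : ℝ} (hε : 0 < ε) :
    ∃ n, ((boxR G (n + 1)).card : ℝ) ≤ (1 + ε) * (boxR G n).card := by
  by_contra hcon
  push Not at hcon
  have hlow : ∀ n : ℕ, (1 + ε) ^ n ≤ ((boxR G n).card : ℝ) := by
    intro n
    induction n with
    | zero =>
      rw [pow_zero]
      exact_mod_cast (boxR_nonempty G 0).card_pos
    | succ n ih =>
      rw [pow_succ']
      exact (mul_le_mul_of_nonneg_left ih (by linarith)).trans (hcon n).le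
  have hup : ∀ n : ℕ, (1 + ε) ^ n ≤ ((n + 1 : ℕ) : ℝ) ^ G.card := by
    intro n
    refine (hlow n).trans ?_
    have := boxR_card_le G n
    exact_mod_cast this
  have hlim := tendsto_pow_const_div_const_pow_of_one_lt G.card (show (1 : ℝ) < 1 + ε by linarith)
  have hpos : (0 : ℝ) < 1 / (1 + ε) := by positivity
  have hev := (hlim.eventually (gt_mem_nhds hpos)).exists_forall_of_atTop
  obtain ⟨N, hN⟩ := hev
  have h1 := hN (N + 1) (by omega)
  have h2 := hup N
  have h3 : (0 : ℝ) < (1 + ε) ^ N := by positivity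
  rw [div_lt_div_iff₀ (by positivity) (by positivity), pow_succ] at h1
  nlinarith

theorem exists_folner (G : Finset ℝ) {ε : ℝ} (hε : 0 < ε) :
    ∃ A : Finset ℝ, A.Nonempty ∧ ∀ γ ∈ G, (1 - ε) * (A.card : ℝ) ≤ ((A.filter fun y => y + γ ∈ A).card : ℝ) := by
  classical
  obtain ⟨n, hn⟩ := boxR_slow G hε
  refine ⟨boxR G n, boxR_nonempty G n, fun γ hγ => ?_⟩
  set A := boxR G n with hA
  have hinj : Function.Injective fun y : ℝ => y + γ := add_left_injective γ
  have h1 : ((A.image fun y => y + γ) ∪ A) ⊆ boxR G (n + 1) := by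
    refine union_subset ?_ (boxR_mono G n)
    intro z hz
    rw [mem_image] at hz
    obtain ⟨y, hy, rfl⟩ := hz
    exact boxR_shift G n hγ hy
  have h2 := card_union_add_card_inter (A.image fun y => y + γ) A
  have h3 : ((A.image fun y => y + γ) ∩ A) = (A.filter fun y => y + γ ∈ A).image fun y => y + γ := by
    ext z
    simp only [mem_inter, mem_image, mem_filter]
    constructor
    · rintro ⟨⟨y, hy, rfl⟩, hz⟩
      exact ⟨y, ⟨hy, hz⟩, rfl⟩
    · rintro ⟨y, ⟨hy, hz⟩, rfl⟩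
      exact ⟨⟨y, hy, rfl⟩, hz⟩
  rw [h3, card_image_of_injective _ hinj, card_image_of_injective _ hinj] at h2
  have h4 := card_le_card h1
  have h5 : ((((A.image fun y => y + γ) ∪ A).card : ℕ) : ℝ) ≤ (boxR G (n + 1)).card := by exact_mod_cast h4
  have h6 : ((((A.image fun y => y + γ) ∪ A).card : ℕ) : ℝ) + ((A.filter fun y => y + γ ∈ A).card : ℝ) =
      (A.card : ℝ) + A.card := by exact_mod_cast h2
  linarith

theorem sum_pd_eq (G : Finset ℝ) (φ : ℝ → ℝ) (hφ : ∀ μ, μ ∉ G → φ μ = 0) (A : Finset ℝ) :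
    ∑ x ∈ A, ∑ y ∈ A, φ (x - y) = ∑ μ ∈ G, φ μ * ((A.filter fun y => y + μ ∈ A).card : ℝ) := by
  classical
  rw [sum_comm]
  have h1 : ∀ y ∈ A, ∑ x ∈ A, φ (x - y) = ∑ μ ∈ G, if y + μ ∈ A then φ μ else 0 := by
    intro y _
    have h2 : ∀ x ∈ A, φ (x - y) = ∑ μ ∈ G, if x = y + μ then φ μ else 0 := by
      intro x _
      by_cases hx : x - y ∈ G
      · rw [sum_eq_single_of_mem (x - y) hx]
        · rw [if_pos (by ring)]
        · intro μ _ hμ
          rw [if_neg]
          intro h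
          apply hμ
          rw [h]
          ring
      · rw [hφ _ hx]
        symm
        refine sum_eq_zero fun μ hμ => ?_
        rw [if_neg]
        intro h
        apply hx
        rw [h, add_sub_cancel_left]
        exact hμ
    rw [sum_congr rfl h2, sum_comm]
    refine sum_congr rfl fun μ _ => ?_
    rw [sum_ite_eq']
  rw [sum_congr rfl h1, sum_comm]
  refine sum_congr rfl fun μ _ => ?_
  rw [← sum_filter, sum_const, nsmul_eq_mul, mul_comm]

theorem sum_nonneg_of_pd (G : Finset ℝ) (φ : ℝ → ℝ) (hφ : ∀ μ, μ ∉ G → φ μ = 0)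
    (hpos : ∀ A : Finset ℝ, 0 ≤ ∑ x ∈ A, ∑ y ∈ A, φ (x - y)) : 0 ≤ ∑ μ ∈ G, φ μ := by
  by_contra hneg
  push Not at hneg
  set C : ℝ := ∑ μ ∈ G, |φ μ| with hC
  have hC0 : 0 ≤ C := sum_nonneg fun μ _ => abs_nonneg _
  set s : ℝ := ∑ μ ∈ G, φ μ with hs
  set ε : ℝ := -s / (C + 1) with hεd
  have hε : 0 < ε := div_pos (by linarith) (by linarith)
  obtain ⟨A, hA, hAG⟩ := exists_folner G hε
  have h0 := hpos A
  rw [sum_pd_eq G φ hφ A] at h0
  have hcA : (0 : ℝ) < A.card := by exact_mod_cast hA.card_pos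
  have h1 : ∀ μ ∈ G, φ μ * ((A.filter fun y => y + μ ∈ A).card : ℝ) ≤
      φ μ * A.card + |φ μ| * (ε * A.card) := by
    intro μ hμ
    have h2 := hAG μ hμ
    have h3 : ((A.filter fun y => y + μ ∈ A).card : ℝ) ≤ A.card := by
      exact_mod_cast card_filter_le _ _
    have h4 := abs_nonneg (φ μ)
    have h5 := neg_abs_le (φ μ)
    have h6 := le_abs_self (φ μ)
    nlinarith [mul_nonneg h4 (sub_nonneg.2 h3), mul_nonneg (by linarith : 0 ≤ |φ μ| + φ μ) (sub_nonneg.2 h3)]
  have h7 := h0.trans (sum_le_sum h1)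
  rw [sum_add_distrib, ← sum_mul, ← sum_mul, ← hs, ← hC] at h7
  have h8 : 0 ≤ s + C * ε := by
    by_contra h
    push Not at h
    nlinarith
  have h9 : ε * (C + 1) = -s := by
    rw [hεd]
    field_simp
  nlinarith

end Pool.Agent.Helper16.OM
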