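import Mathlib

/-!
# OM, leaf L3: lower bound for the Gamma function on vertical lines
-/

set_option autoImplicit false

namespace Pool.Agent.Helper16.OM

open Filter Topology Finset

theorem gm_term {a σ μ : ℝ} (ha : 0 ≤ a) (hσ : 0 ≤ σ) :
    a * ‖((a + σ : ℝ) : ℂ) + μ * Complex.I‖ ≤ (a + σ) * ‖(a : ℂ) + μ * Complex.I‖ := by
  have h1 : ∀ x : ℝ, ‖(x : ℂ) + μ * Complex.I‖ ^ 2 = x ^ 2 + μ ^ 2 := by
    intro x
    rw [Complex.sq_norm, Complex.normSq_add_mul_I]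
  have h2 : (a * ‖((a + σ : ℝ) : ℂ) + μ * Complex.I‖) ^ 2 ≤ ((a + σ) * ‖(a : ℂ) + μ * Complex.I‖) ^ 2 := by
    rw [mul_pow, mul_pow, h1, h1]
    have h3 : a ^ 2 * μ ^ 2 ≤ (a + σ) ^ 2 * μ ^ 2 := by
      refine mul_le_mul_of_nonneg_right ?_ (sq_nonneg μ)
      nlinarith
    nlinarith
  exact (sq_le_sq₀ (by positivity) (by positivity)).1 h2

theorem norm_gammaSeq {n : ℕ} (hn : 0 < n) (x μ : ℝ) :
    ‖Complex.GammaSeq ((x : ℂ) + μ * Complex.I) n‖ =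
      (n : ℝ) ^ x * n.factorial / ∏ j ∈ range (n + 1), ‖((x + j : ℝ) : ℂ) + μ * Complex.I‖ := by
  rw [Complex.GammaSeq, norm_div, norm_mul, Complex.norm_natCast_cpow_of_pos hn, norm_prod]
  congr 1
  · congr 1
    · simp
    · exact Complex.norm_natCast _
  · refine prod_congr rfl fun j _ => ?_
    congr 1
    push_cast
    ring

theorem gammaSeq_le {n : ℕ} (hn : 0 < n) (σ μ : ℝ) (hσ : 0 ≤ σ) :
    Real.GammaSeq (1 + σ) n * ‖Complex.GammaSeq (((1 : ℝ) : ℂ) + μ * Complex.I) n‖ ≤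
      ‖Complex.GammaSeq (((1 + σ : ℝ) : ℂ) + μ * Complex.I) n‖ * Real.GammaSeq 1 n := by
  rw [norm_gammaSeq hn, norm_gammaSeq hn, Real.GammaSeq, Real.GammaSeq]
  have hp1 : ∀ x : ℝ, 0 < x → 0 < ∏ j ∈ range (n + 1), (x + (j : ℝ)) := fun x hx =>
    prod_pos fun j _ => by positivity
  have hp2 : ∀ x : ℝ, 0 < x → 0 < ∏ j ∈ range (n + 1), ‖((x + j : ℝ) : ℂ) + μ * Complex.I‖ := by
    intro x hx
    refine prod_pos fun j _ => ?_
    rw [norm_pos_iff]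
    intro h
    have h3 := congrArg Complex.re h
    simp at h3
    have : (0 : ℝ) ≤ j := by positivity
    linarith
  have h4 : (∏ j ∈ range (n + 1), ‖((1 + σ + j : ℝ) : ℂ) + μ * Complex.I‖) * ∏ j ∈ range (n + 1), ((1 : ℝ) + (j : ℝ)) ≤
      (∏ j ∈ range (n + 1), (1 + σ + (j : ℝ))) * ∏ j ∈ range (n + 1), ‖((1 + j : ℝ) : ℂ) + μ * Complex.I‖ := by
    rw [← prod_mul_distrib, ← prod_mul_distrib]
    refine prod_le_prod (fun j _ => by positivity) fun j _ => ?_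
    have h5 := gm_term (a := 1 + (j : ℝ)) (σ := σ) (μ := μ) (by positivity) hσ
    have e1 : (1 + (j : ℝ) + σ) = 1 + σ + j := by ring
    rw [e1] at h5
    rw [mul_comm]
    exact h5
  have hσ1 : (0 : ℝ) < 1 + σ := by linarith
  have a1 := hp1 (1 + σ) hσ1
  have a2 := hp1 1 one_pos
  have a3 := hp2 (1 + σ) hσ1
  have a4 := hp2 1 one_pos
  rw [div_mul_div_comm, div_mul_div_comm, div_le_div_iff₀ (mul_pos a1 a4) (mul_pos a3 a2)]
  have h6 : 0 ≤ (n : ℝ) ^ (1 + σ) * (n.factorial : ℝ) * ((n : ℝ) ^ (1 : ℝ) * (n.factorial : ℝ)) := by positivity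
  calc (n : ℝ) ^ (1 + σ) * (n.factorial : ℝ) * ((n : ℝ) ^ (1 : ℝ) * (n.factorial : ℝ)) *
        ((∏ j ∈ range (n + 1), ‖((1 + σ + j : ℝ) : ℂ) + μ * Complex.I‖) * ∏ j ∈ range (n + 1), ((1 : ℝ) + (j : ℝ)))
      ≤ (n : ℝ) ^ (1 + σ) * (n.factorial : ℝ) * ((n : ℝ) ^ (1 : ℝ) * (n.factorial : ℝ)) *
        ((∏ j ∈ range (n + 1), (1 + σ + (j : ℝ))) * ∏ j ∈ range (n + 1), ‖((1 + j : ℝ) : ℂ) + μ * Complex.I‖) :=
        mul_le_mul_of_nonneg_left h4 h6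
    _ = _ := by ring

theorem gamma_shift (σ μ : ℝ) (hσ : 0 ≤ σ) :
    Real.Gamma (1 + σ) * ‖Complex.Gamma (((1 : ℝ) : ℂ) + μ * Complex.I)‖ ≤
      ‖Complex.Gamma (((1 + σ : ℝ) : ℂ) + μ * Complex.I)‖ := by
  have h1 := (Real.GammaSeq_tendsto_Gamma (1 + σ)).mul
    (Complex.GammaSeq_tendsto_Gamma (((1 : ℝ) : ℂ) + μ * Complex.I)).norm
  have h2 := (Complex.GammaSeq_tendsto_Gamma (((1 + σ : ℝ) : ℂ) + μ * Complex.I)).norm.mul
    (Real.GammaSeq_tendsto_Gamma 1)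
  have h3 := le_of_tendsto_of_tendsto h1 h2
    (by filter_upwards [eventually_gt_atTop 0] with n hn using gammaSeq_le hn σ μ hσ)
  rwa [Real.Gamma_one, mul_one] at h3

theorem gamma_one_line (μ : ℝ) :
    Real.exp (-(Real.pi / 2 * |μ|)) ≤ ‖Complex.Gamma (((1 : ℝ) : ℂ) + μ * Complex.I)‖ := by
  by_cases hμ : μ = 0
  · subst hμ
    simp
  have hpi := Real.pi_pos
  have hμI : (μ : ℂ) * Complex.I ≠ 0 := by
    simp [hμ]
  have hg1 : Complex.Gamma (((1 : ℝ) : ℂ) + μ * Complex.I) = (μ * Complex.I) * Complex.Gamma (μ * Complex.I) := by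
    rw [← Complex.Gamma_add_one _ hμI]
    congr 1
    push_cast
    ring
  have hg2 : ‖Complex.Gamma (1 - μ * Complex.I)‖ = ‖Complex.Gamma (((1 : ℝ) : ℂ) + μ * Complex.I)‖ := by
    have : (1 : ℂ) - μ * Complex.I = (starRingEnd ℂ) (((1 : ℝ) : ℂ) + μ * Complex.I) := by
      simp [sub_eq_add_neg]
    rw [this, Complex.Gamma_conj, RCLike.norm_conj]
  have hrefl := Complex.Gamma_mul_Gamma_one_sub (μ * Complex.I)
  have hsin : Complex.sin (Real.pi * (μ * Complex.I)) = (Real.sinh (Real.pi * μ) : ℂ) * Complex.I := by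
    rw [← mul_assoc, Complex.sin_mul_I]
    push_cast
    rfl
  have hsq : ‖Complex.Gamma (((1 : ℝ) : ℂ) + μ * Complex.I)‖ ^ 2 = (Real.pi * |μ|) / |Real.sinh (Real.pi * μ)| := by
    have h1 : ‖Complex.Gamma (((1 : ℝ) : ℂ) + μ * Complex.I)‖ ^ 2 =
        ‖(μ : ℂ) * Complex.I‖ * ‖Complex.Gamma (μ * Complex.I) * Complex.Gamma (1 - μ * Complex.I)‖ := by
      rw [sq]
      nth_rewrite 2 [← hg2]
      rw [hg1, norm_mul, norm_mul, norm_mul]
      ring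
    rw [h1, hrefl, hsin]
    simp only [norm_mul, norm_div, Complex.norm_real, Complex.norm_I, mul_one, Real.norm_eq_abs,
      abs_of_pos hpi]
    ring
  set x : ℝ := Real.pi * |μ| with hx
  have hx0 : 0 < x := mul_pos hpi (abs_pos.2 hμ)
  have habs : |Real.sinh (Real.pi * μ)| = Real.sinh x := by
    rw [Real.abs_sinh, abs_mul, abs_of_pos hpi]
  have hs : 0 < Real.sinh x := Real.sinh_pos_iff.2 hx0
  have hmain : Real.exp (-x) ≤ ‖Complex.Gamma (((1 : ℝ) : ℂ) + μ * Complex.I)‖ ^ 2 := by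
    rw [hsq, habs, le_div_iff₀ hs, Real.sinh_eq]
    have h1 : Real.exp (-x) * Real.exp x = 1 := by rw [← Real.exp_add]; simp
    have h2 : 1 - 2 * x ≤ Real.exp (-x) * Real.exp (-x) := by
      rw [← Real.exp_add]
      have := Real.add_one_le_exp (-x + -x)
      linarith
    nlinarith
  have h3 : Real.exp (-(Real.pi / 2 * |μ|)) ^ 2 = Real.exp (-x) := by
    rw [← Real.exp_nat_mul]
    congr 1
    rw [hx]
    push_cast
    ring
  rw [← h3] at hmain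
  exact (sq_le_sq₀ (Real.exp_pos _).le (norm_nonneg _)).1 hmain

theorem gamma_lower (σ μ : ℝ) (hσ : 0 ≤ σ) :
    Real.Gamma (1 + σ) * Real.exp (-(Real.pi / 2 * |μ|)) ≤ ‖Complex.Gamma (1 + (σ : ℂ) + μ * Complex.I)‖ := by
  have h1 := gamma_shift σ μ hσ
  have h2 := gamma_one_line μ
  have h3 : 0 < Real.Gamma (1 + σ) := Real.Gamma_pos_of_pos (by linarith)
  have h4 : (((1 + σ : ℝ) : ℂ)) = 1 + (σ : ℂ) := by push_cast; rfl
  rw [h4] at h1
  exact (mul_le_mul_of_nonneg_left h2 h3.le).trans h1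

end Pool.Agent.Helper16.OM
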